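import Pool.Agent.helper4.HL.Spec

/-!
# Quantum cat maps at generic Planck mantissas, module BNZ (helper25)
-/

set_option autoImplicit false

open scoped BigOperators ComplexOrder ComplexConjugate Topology

namespace Pool.Agent.HL

open Pool.Agent.helper86.CM Pool.Agent.QS Filter MeasureTheory

noncomputable section

theorem BNZ_root (t : ℤ) (ht : 2 < t) :
    ((lam t)⁻¹) ^ 2 - (t : ℝ) * (lam t)⁻¹ + 1 = 0 := by
  have ht' : (2 : ℝ) < (t : ℝ) := by exact_mod_cast ht
  have h0 : (0 : ℝ) ≤ (t : ℝ) ^ 2 - 4 := by nlinarith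
  have hs := Real.sq_sqrt h0
  have hs0 := Real.sqrt_nonneg ((t : ℝ) ^ 2 - 4)
  have hl : lam t ≠ 0 := by
    unfold lam
    positivity
  have h1 : (lam t) ^ 2 - (t : ℝ) * lam t + 1 = 0 := by
    unfold lam
    nlinarith
  field_simp
  linarith

theorem BNZ (hQ : QF0_stmt) (hB : BET_stmt) : BNZ_stmt := by
  intro B t hBt n m hn hm h0
  have hr := BNZ_root t hBt.lt
  unfold beta at h0
  set μ := (lam t)⁻¹ with hμ
  have hx : (omega n (B m) : ℝ) = μ * (omega n m : ℝ) := by linarith
  have hz : (-(omega n (B m))) ^ 2 + t * (-(omega n (B m))) * omega n m + omega n m ^ 2 = 0 := by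
    have h2 : ((-(omega n (B m))) ^ 2 + t * (-(omega n (B m))) * omega n m + omega n m ^ 2 : ℝ) = 0 := by
      rw [hx]
      linear_combination (omega n m : ℝ) ^ 2 * hr
    exact_mod_cast h2
  obtain ⟨h1, h2⟩ := hQ t hBt.lt _ _ hz
  have h3 : omega n (B m) = 0 := by omega
  have h4 := (hB B t hBt).2.2.2 m hm
  apply h4
  have e : ∀ x y : Lat 1, omega x y = x (Sum.inl 0) * y (Sum.inr 0) - x (Sum.inr 0) * y (Sum.inl 0) := by
    intro x y
    unfold omega
    simp
  rw [e] at h2 h3 ⊢
  by_cases c : n (Sum.inl 0) = 0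
  · have c2 : n (Sum.inr 0) ≠ 0 := by
      intro c2
      apply hn
      funext i
      rcases i with i | i
      · rw [Subsingleton.elim i 0]
        exact c
      · rw [Subsingleton.elim i 0]
        exact c2
    apply mul_left_cancel₀ c2
    linear_combination (B m (Sum.inr 0)) * (-h2) - (m (Sum.inr 0)) * (-h3)
  · apply mul_left_cancel₀ c
    linear_combination (m (Sum.inl 0)) * h3 - (B m (Sum.inl 0)) * h2

end

end Pool.Agent.HL
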